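import Pool.Agent.Y320.ST.Stm

/-!
# Approximate continuity
-/

set_option autoImplicit false

namespace Pool.Agent.Y100.ST

open Filter Topology MeasureTheory Metric
open Pool.Agent.Y320.ST

/-- LEB -/
theorem leb : S_LEB := by
  intro a C ha hC
  have hloc : LocallyIntegrable a := by
    intro x
    refine ⟨ball x 1, ball_mem_nhds x one_pos, ?_⟩
    exact Measure.integrableOn_of_bounded (M := C) measure_ball_lt_top.ne
      ha.aestronglyMeasurable (Eventually.of_forall fun y => hC y)
  have h := IsUnifLocDoublingMeasure.ae_tendsto_average_norm_sub (volume : Measure ℂ) hloc 1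
  filter_upwards [h] with x hx ε hε
  have h1 : Tendsto (fun r : ℝ => ⨍ y in closedBall x r, ‖a y - a x‖) (𝓝[>] 0) (𝓝 0) := by
    refine hx (fun _ => x) (fun r : ℝ => r) tendsto_id ?_
    filter_upwards [self_mem_nhdsWithin] with r hr
    rw [one_mul]
    exact mem_closedBall_self (le_of_lt hr)
  have h2 : ∀ᶠ r : ℝ in 𝓝[>] 0, ⨍ y in closedBall x r, ‖a y - a x‖ < ε ^ 2 / Real.pi :=
    h1.eventually_lt_const (by positivity)
  obtain ⟨r0, hr0, hsub⟩ := mem_nhdsGT_iff_exists_Ioo_subset.mp h2
  refine ⟨r0, hr0, fun r hr hr' => ?_⟩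
  have h3 : ⨍ y in closedBall x r, ‖a y - a x‖ < ε ^ 2 / Real.pi := hsub ⟨hr, hr'⟩
  have hvol : (volume : Measure ℂ).real (closedBall x r) = r ^ 2 * Real.pi := by
    unfold Measure.real
    rw [Complex.volume_closedBall, ENNReal.toReal_mul, ENNReal.toReal_pow,
      ENNReal.toReal_ofReal hr.le]
    rfl
  rw [setAverage_eq, hvol, smul_eq_mul, inv_mul_lt_iff₀ (by positivity)] at h3
  have h4 : ∫ y in closedBall x r, ‖a y - a x‖ < ε ^ 2 * r ^ 2 := by
    refine h3.trans_le (le_of_eq ?_)
    have := Real.pi_ne_zero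
    field_simp
  have hmeas : Measurable fun y => ‖a y - a x‖ := (ha.sub_const _).norm
  have hint : IntegrableOn (fun y => ‖a y - a x‖) (closedBall x r) := by
    refine Measure.integrableOn_of_bounded (M := C + C) measure_closedBall_lt_top.ne
      hmeas.aestronglyMeasurable (Eventually.of_forall fun y => ?_)
    rw [norm_norm]
    refine (norm_sub_le _ _).trans (add_le_add (hC y) (hC x))
  have h5 := mul_meas_ge_le_integral_of_nonneg (μ := volume.restrict (closedBall x r))
    (f := fun y => ‖a y - a x‖) (Eventually.of_forall fun y => norm_nonneg _) hint ε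
  have hS : MeasurableSet {y : ℂ | ε ≤ ‖a y - a x‖} := measurableSet_le measurable_const hmeas
  have h6 : (volume.restrict (closedBall x r)).real {y : ℂ | ε ≤ ‖a y - a x‖} ≤ ε * r ^ 2 := by
    have h7 : ε * (volume.restrict (closedBall x r)).real {y : ℂ | ε ≤ ‖a y - a x‖} ≤
        ε * (ε * r ^ 2) := h5.trans (h4.le.trans (le_of_eq (by ring)))
    exact le_of_mul_le_mul_left h7 hε
  have hfin : (volume.restrict (closedBall x r)) {y : ℂ | ε ≤ ‖a y - a x‖} ≠ ⊤ := by
    rw [Measure.restrict_apply hS]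
    exact ((measure_mono Set.inter_subset_right).trans_lt measure_closedBall_lt_top).ne
  have h8 : (volume.restrict (closedBall x r)) {y : ℂ | ε ≤ ‖a y - a x‖} ≤
      ENNReal.ofReal (ε * r ^ 2) := by
    rw [← ENNReal.ofReal_toReal hfin]
    exact ENNReal.ofReal_le_ofReal h6
  refine le_trans ?_ h8
  rw [Measure.restrict_apply hS]
  refine measure_mono fun y hy => ⟨?_, ?_⟩
  · have h9 := hy.2.le
    rwa [← Real.norm_eq_abs] at h9
  · exact mem_closedBall.mpr hy.1

end Pool.Agent.Y100.ST
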